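import Mathlib

/-!
The modular lattice `MX X` of height two whose middle level is the set `X`.
-/

set_option autoImplicit false

namespace Pool.Agent.BDLat

/-- The lattice with a bottom, a top and a set `X` of pairwise incomparable middle elements. -/
inductive MX (X : Type) : Type
  | bot : MX X
  | atom (x : X) : MX X
  | top : MX X

namespace MX

variable {X : Type}

/-- The order of `MX X`. -/
protected def le : MX X → MX X → Prop
  | bot, _ => True
  | _, top => True
  | atom x, atom y => x = y
  | atom _, bot => False
  | top, bot => False
  | top, atom _ => False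

instance : LE (MX X) := ⟨MX.le⟩

@[simp] theorem bot_le' (a : MX X) : (bot : MX X) ≤ a := by
  cases a <;> exact trivial

@[simp] theorem le_top' (a : MX X) : a ≤ (top : MX X) := by
  cases a <;> exact trivial

@[simp] theorem atom_le_atom (x y : X) : (atom x : MX X) ≤ atom y ↔ x = y := Iff.rfl

@[simp] theorem atom_le_bot (x : X) : ¬ ((atom x : MX X) ≤ bot) := fun h => h

@[simp] theorem top_le_bot : ¬ ((top : MX X) ≤ bot) := fun h => h

@[simp] theorem top_le_atom (x : X) : ¬ ((top : MX X) ≤ atom x) := fun h => h

open Classical in
/-- Join in `MX X`. -/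
noncomputable def join : MX X → MX X → MX X
  | bot, b => b
  | a, bot => a
  | atom x, atom y => if x = y then atom x else top
  | top, _ => top
  | _, top => top

open Classical in
/-- Meet in `MX X`. -/
noncomputable def meet : MX X → MX X → MX X
  | top, b => b
  | a, top => a
  | atom x, atom y => if x = y then atom x else bot
  | bot, _ => bot
  | _, bot => bot

noncomputable instance : Lattice (MX X) where
  le := fun a b => a ≤ b
  le_refl a := by cases a <;> simp
  le_trans a b c hab hbc := by
    cases a <;> cases b <;> cases c <;> simp_all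
  le_antisymm a b hab hba := by
    cases a <;> cases b <;> simp_all
  sup := join
  inf := meet
  le_sup_left a b := by
    cases a <;> cases b <;> simp [join] ; split_ifs <;> simp
  le_sup_right a b := by
    cases a <;> cases b <;> simp [join] ; split_ifs <;> simp_all
  sup_le a b c hac hbc := by
    cases a <;> cases b <;> cases c <;> simp_all [join]
  inf_le_left a b := by
    cases a <;> cases b <;> simp [meet] ; split_ifs <;> simp
  inf_le_right a b := by
    cases a <;> cases b <;> simp [meet] ; split_ifs <;> simp_all
  le_inf a b c hab hac := by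
    cases a <;> cases b <;> cases c <;> simp_all [meet]

@[simp] theorem bot_sup (a : MX X) : (bot : MX X) ⊔ a = a := sup_eq_right.2 (bot_le' a)
@[simp] theorem sup_bot (a : MX X) : a ⊔ (bot : MX X) = a := sup_eq_left.2 (bot_le' a)
@[simp] theorem top_sup (a : MX X) : (top : MX X) ⊔ a = top := sup_eq_left.2 (le_top' a)
@[simp] theorem sup_top (a : MX X) : a ⊔ (top : MX X) = top := sup_eq_right.2 (le_top' a)
@[simp] theorem bot_inf (a : MX X) : (bot : MX X) ⊓ a = bot := inf_eq_left.2 (bot_le' a)
@[simp] theorem inf_bot (a : MX X) : a ⊓ (bot : MX X) = bot := inf_eq_right.2 (bot_le' a)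
@[simp] theorem top_inf (a : MX X) : (top : MX X) ⊓ a = a := inf_eq_right.2 (le_top' a)
@[simp] theorem inf_top (a : MX X) : a ⊓ (top : MX X) = a := inf_eq_left.2 (le_top' a)

theorem atom_sup_atom {x y : X} (h : x ≠ y) : (atom x : MX X) ⊔ atom y = top := by
  change join _ _ = _
  simp [join, h]

theorem atom_inf_atom {x y : X} (h : x ≠ y) : (atom x : MX X) ⊓ atom y = bot := by
  change meet _ _ = _
  simp [meet, h]

theorem modular (a b c : MX X) (h : a ≤ c) : (a ⊔ b) ⊓ c ≤ a ⊔ b ⊓ c := by
  cases a <;> cases b <;> cases c <;> simp_all

/-- A permutation of `X` acts on `MX X`. -/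
def map (π : Equiv.Perm X) : MX X → MX X
  | bot => bot
  | atom x => atom (π x)
  | top => top

@[simp] theorem map_bot (π : Equiv.Perm X) : map π bot = bot := rfl
@[simp] theorem map_top (π : Equiv.Perm X) : map π top = top := rfl
@[simp] theorem map_atom (π : Equiv.Perm X) (x : X) : map π (atom x) = atom (π x) := rfl

@[simp] theorem map_one (a : MX X) : map 1 a = a := by cases a <;> rfl

theorem map_mul (π τ : Equiv.Perm X) (a : MX X) : map (π * τ) a = map π (map τ a) := by
  cases a <;> rfl

@[simp] theorem map_le_map (π : Equiv.Perm X) (a b : MX X) : map π a ≤ map π b ↔ a ≤ b := by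
  cases a <;> cases b <;> simp

theorem map_sup (π : Equiv.Perm X) (a b : MX X) : map π (a ⊔ b) = map π a ⊔ map π b := by
  cases a <;> cases b <;> simp
  case atom.atom x y =>
    by_cases h : x = y
    · subst h; simp
    · rw [atom_sup_atom h, atom_sup_atom (fun h' => h (π.injective h'))]; rfl

theorem map_inf (π : Equiv.Perm X) (a b : MX X) : map π (a ⊓ b) = map π a ⊓ map π b := by
  cases a <;> cases b <;> simp
  case atom.atom x y =>
    by_cases h : x = y
    · subst h; simp
    · rw [atom_inf_atom h, atom_inf_atom (fun h' => h (π.injective h'))]; rfl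

theorem map_injective (π : Equiv.Perm X) : Function.Injective (map π) := by
  intro a b h
  exact le_antisymm ((map_le_map π a b).1 h.le) ((map_le_map π b a).1 h.ge)

instance [Finite X] : Finite (MX X) := by
  classical
  let f : MX X → Option (Option X) := fun a => match a with
    | bot => none
    | top => some none
    | atom x => some (some x)
  refine Finite.of_injective f ?_
  intro a b h
  cases a <;> cases b <;> simp_all [f]

/-- The two coordinates of an embedding of `MX (Fin n)` into the plane. -/
def crd {n : ℕ} (e : X ≃ Fin n) (s : Fin 2) : MX X → ℕ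
  | bot => 0
  | atom x => if s = 0 then (e x : ℕ) + 1 else n - (e x : ℕ)
  | top => n + 1

theorem le_iff_crd {n : ℕ} (e : X ≃ Fin n) (a b : MX X) :
    a ≤ b ↔ ∀ s : Fin 2, crd e s a ≤ crd e s b := by
  constructor
  · intro h s
    cases a <;> cases b <;> simp_all [crd]
    · rename_i x
      have := (e x).isLt
      split_ifs <;> omega
  · intro h
    have h0 := h 0
    have h1 := h 1
    cases a <;> cases b <;> simp_all [crd]
    case atom.atom x y =>
      have hx := (e x).isLt
      have hy := (e y).isLt
      apply e.injective
      apply Fin.ext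
      omega

end MX

end Pool.Agent.BDLat
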