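import Mathlib
import Pool.Agent.BDLat.MX

/-!
Twisted function lattices over a fixed poset of height two with seven elements.
-/

set_option autoImplicit false

namespace Pool.Agent.BDLat

/-- The strict order relation of a rigid poset on seven points. -/
def E : Fin 7 → Fin 7 → Bool := fun j k =>
  match j.val, k.val with
  | 0, 3 => true
  | 0, 4 => true
  | 0, 5 => true
  | 1, 3 => true
  | 1, 4 => true
  | 1, 6 => true
  | 2, 3 => true
  | 2, 5 => true
  | _, _ => false

theorem E_bip : ∀ i j k : Fin 7, E i j = true → E j k = true → False := by decide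

theorem E_irrefl : ∀ j : Fin 7, E j j = false := by decide

/-- Up-sets of the poset, as Boolean vectors. -/
abbrev D0 : Type := {d : Fin 7 → Bool // ∀ j k, E j k = true → d j = true → d k = true}

/-- The principal up-set of a point. -/
def pr (j : Fin 7) : D0 :=
  ⟨fun k => decide (k = j) || E j k, by
    revert j; decide⟩

/-- Comparison of Boolean vectors. -/
def leD (e d : D0) : Prop := ∀ j, e.1 j = true → d.1 j = true

instance (e d : D0) : Decidable (leD e d) := by unfold leD; infer_instance

def cntdn (d : D0) : ℕ := (Finset.univ.filter (fun e : D0 => leD e d)).card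
def cntup (d : D0) : ℕ := (Finset.univ.filter (fun e : D0 => leD d e)).card

theorem pr_unique : ∀ (j : Fin 7) (d : D0), cntdn d = cntdn (pr j) → cntup d = cntup (pr j) →
    d = pr j := by
  decide +kernel

/-- A bijection of `D0` that respects the order fixes the principal up-sets. -/
theorem fix_pr (f : D0 ≃ D0) (hf : ∀ a b, leD (f a) (f b) ↔ leD a b) (j : Fin 7) :
    f (pr j) = pr j := by
  apply pr_unique
  · unfold cntdn
    symm
    apply Finset.card_bij (fun a _ => f a)
    · intro a ha
      simp only [Finset.mem_filter, Finset.mem_univ, true_and] at ha ⊢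
      exact (hf _ _).2 ha
    · intro a _ b _ h
      exact f.injective h
    · intro b hb
      simp only [Finset.mem_filter, Finset.mem_univ, true_and] at hb
      refine ⟨f.symm b, ?_, by simp⟩
      simp only [Finset.mem_filter, Finset.mem_univ, true_and]
      rw [← hf]
      simpa using hb
  · unfold cntup
    symm
    apply Finset.card_bij (fun a _ => f a)
    · intro a ha
      simp only [Finset.mem_filter, Finset.mem_univ, true_and] at ha ⊢
      exact (hf _ _).2 ha
    · intro a _ b _ h
      exact f.injective h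
    · intro b hb
      simp only [Finset.mem_filter, Finset.mem_univ, true_and] at hb
      refine ⟨f.symm b, ?_, by simp⟩
      simp only [Finset.mem_filter, Finset.mem_univ, true_and]
      rw [← hf]
      simpa using hb

variable {X : Type}

/-- The permutation attached to a pair of coordinates. -/
def rho (π₁ π₂ : Equiv.Perm X) (j k : Fin 7) : Equiv.Perm X :=
  if j = 1 ∧ k = 4 then π₁ else if j = 2 ∧ k = 5 then π₂ else 1

/-- The twisted function lattice. -/
def Lat (π₁ π₂ : Equiv.Perm X) : Sublattice (Fin 7 → MX X) where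
  carrier := {f | ∀ j k, E j k = true → MX.map (rho π₁ π₂ j k) (f j) ≤ f k}
  supClosed' := by
    intro f hf g hg j k hjk
    simp only [Pi.sup_apply, MX.map_sup]
    exact sup_le_sup (hf j k hjk) (hg j k hjk)
  infClosed' := by
    intro f hf g hg j k hjk
    simp only [Pi.inf_apply, MX.map_inf]
    exact inf_le_inf (hf j k hjk) (hg j k hjk)

variable (π₁ π₂ : Equiv.Perm X)

theorem mem_Lat {f : Fin 7 → MX X} :
    f ∈ Lat π₁ π₂ ↔ ∀ j k, E j k = true → MX.map (rho π₁ π₂ j k) (f j) ≤ f k := Iff.rfl

instance : IsModularLattice (Lat π₁ π₂) where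
  sup_inf_le_assoc_of_le := by
    intro x y z hxz j
    exact MX.modular (x.1 j) (y.1 j) (z.1 j) (hxz j)

instance [Finite X] : Finite (Lat π₁ π₂) := Subtype.finite

/-- Elements with coordinates `0` and `1` only. -/
def ind (d : D0) : Lat π₁ π₂ :=
  ⟨fun j => if d.1 j = true then MX.top else MX.bot, by
    rw [mem_Lat]
    intro j k hjk
    by_cases hj : d.1 j = true
    · have hk := d.2 j k hjk hj
      simp [hj, hk]
    · simp [hj]⟩

theorem ind_le (d e : D0) : ind π₁ π₂ d ≤ ind π₁ π₂ e ↔ leD d e := by
  constructor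
  · intro h j hj
    have := h j
    by_contra hc
    simp [ind, hj, hc] at this
  · intro h j
    change (if d.1 j = true then (MX.top : MX X) else MX.bot) ≤
      (if e.1 j = true then MX.top else MX.bot)
    by_cases hj : d.1 j = true
    · simp [hj, h j hj]
    · simp [hj]

theorem ind_injective : Function.Injective (ind π₁ π₂) := by
  intro d e h
  have h1 := (ind_le π₁ π₂ d e).1 h.le
  have h2 := (ind_le π₁ π₂ e d).1 h.ge
  apply Subtype.ext
  funext j
  rw [Bool.eq_iff_iff]
  exact ⟨h1 j, h2 j⟩

/-- Elements of the interval between the two indicators of a point. -/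
def el (j : Fin 7) (m : MX X) : Lat π₁ π₂ :=
  ⟨fun k => if k = j then m else if E j k = true then MX.top else MX.bot, by
    rw [mem_Lat]
    intro a b hab
    by_cases ha : a = j
    · subst ha
      have hb : b ≠ a := by
        rintro rfl
        rw [E_irrefl] at hab
        exact absurd hab (by decide)
      simp [hb, hab]
    · by_cases hja : E j a = true
      · exact (E_bip _ _ _ hja hab).elim
      · simp [ha, hja]⟩

/-- Elements with one atom coordinate, transported along the relations. -/
def tw (j : Fin 7) (x : X) : Lat π₁ π₂ :=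
  ⟨fun k => if k = j then MX.atom x else if E j k = true then MX.atom (rho π₁ π₂ j k x)
      else MX.bot, by
    rw [mem_Lat]
    intro a b hab
    by_cases ha : a = j
    · subst ha
      have hb : b ≠ a := by
        rintro rfl
        rw [E_irrefl] at hab
        exact absurd hab (by decide)
      simp [hb, hab]
    · by_cases hja : E j a = true
      · exact (E_bip _ _ _ hja hab).elim
      · simp [ha, hja]⟩

theorem el_self (j : Fin 7) (m : MX X) : (el π₁ π₂ j m).1 j = m := by simp [el]

theorem el_le (j : Fin 7) (m n : MX X) (h : m ≤ n) : el π₁ π₂ j m ≤ el π₁ π₂ j n := by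
  intro k
  change (if k = j then m else if E j k = true then MX.top else MX.bot) ≤
    (if k = j then n else if E j k = true then MX.top else MX.bot)
  split_ifs <;> simp [h]

/-- Distributive elements are the ones with coordinates `0` and `1`. -/
def IsD (f : Lat π₁ π₂) : Prop := ∀ j, f.1 j = MX.bot ∨ f.1 j = MX.top

theorem isD_iff (hX : ∀ a : X, ∃ b c : X, a ≠ b ∧ a ≠ c ∧ b ≠ c) (f : Lat π₁ π₂) :
    IsD π₁ π₂ f ↔ ∀ y z : Lat π₁ π₂, f ⊓ (y ⊔ z) ≤ (f ⊓ y) ⊔ (f ⊓ z) := by
  constructor
  · intro h y z j
    change f.1 j ⊓ (y.1 j ⊔ z.1 j) ≤ (f.1 j ⊓ y.1 j) ⊔ (f.1 j ⊓ z.1 j)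
    rcases h j with h | h <;> simp [h]
  · intro h j
    rcases hfj : f.1 j with _ | a | _
    · exact Or.inl rfl
    · exfalso
      obtain ⟨b, c, hab, hac, hbc⟩ := hX a
      have := h (el π₁ π₂ j (MX.atom b)) (el π₁ π₂ j (MX.atom c)) j
      change f.1 j ⊓ ((el π₁ π₂ j (MX.atom b)).1 j ⊔ (el π₁ π₂ j (MX.atom c)).1 j) ≤
        (f.1 j ⊓ (el π₁ π₂ j (MX.atom b)).1 j) ⊔ (f.1 j ⊓ (el π₁ π₂ j (MX.atom c)).1 j) at this
      rw [el_self, el_self, hfj, MX.atom_sup_atom hbc, MX.atom_inf_atom hab,
        MX.atom_inf_atom hac] at this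
      simp at this
    · exact Or.inr rfl

theorem isD_ind (d : D0) : IsD π₁ π₂ (ind π₁ π₂ d) := by
  intro j
  change (if d.1 j = true then (MX.top : MX X) else MX.bot) = MX.bot ∨
    (if d.1 j = true then (MX.top : MX X) else MX.bot) = MX.top
  split_ifs <;> simp

theorem exists_ind_of_isD (f : Lat π₁ π₂) (hf : IsD π₁ π₂ f) : ∃ d : D0, ind π₁ π₂ d = f := by
  classical
  refine ⟨⟨fun j => decide (f.1 j = MX.top), ?_⟩, ?_⟩
  · intro j k hjk hj
    simp only [decide_eq_true_eq] at hj ⊢
    have := f.2 j k hjk
    rw [hj] at this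
    simp only [MX.map_top] at this
    rcases hf k with h | h
    · rw [h] at this
      exact absurd this MX.top_le_bot
    · exact h
  · apply Subtype.ext
    funext j
    change (if decide (f.1 j = MX.top) = true then (MX.top : MX X) else MX.bot) = f.1 j
    rcases hf j with h | h <;> simp [h]

theorem isD_map (hX : ∀ a : X, ∃ b c : X, a ≠ b ∧ a ≠ c ∧ b ≠ c)
    (σ : Lat π₁ π₂ ≃o Lat π₁ π₂) (f : Lat π₁ π₂) (hf : IsD π₁ π₂ f) : IsD π₁ π₂ (σ f) := by
  rw [isD_iff _ _ hX] at hf ⊢
  intro y z
  have := hf (σ.symm y) (σ.symm z)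
  have h2 := σ.monotone this
  simpa using h2

/-- Every automorphism fixes the indicators of principal up-sets. -/
theorem fix_ind (hX : ∀ a : X, ∃ b c : X, a ≠ b ∧ a ≠ c ∧ b ≠ c)
    (σ : Lat π₁ π₂ ≃o Lat π₁ π₂) (j : Fin 7) : σ (ind π₁ π₂ (pr j)) = ind π₁ π₂ (pr j) := by
  classical
  have key : ∀ (τ : Lat π₁ π₂ ≃o Lat π₁ π₂) (d : D0), ∃ e : D0,
      ind π₁ π₂ e = τ (ind π₁ π₂ d) := fun τ d =>
    exists_ind_of_isD _ _ _ (isD_map _ _ hX τ _ (isD_ind _ _ d))
  choose F hF using key
  let f : D0 ≃ D0 :=
    { toFun := F σ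
      invFun := F σ.symm
      left_inv := by
        intro d
        apply ind_injective π₁ π₂
        rw [hF, hF]; simp
      right_inv := by
        intro d
        apply ind_injective π₁ π₂
        rw [hF, hF]; simp }
  have hf : ∀ a b, leD (f a) (f b) ↔ leD a b := by
    intro a b
    rw [← ind_le π₁ π₂, ← ind_le π₁ π₂]
    change ind π₁ π₂ (F σ a) ≤ ind π₁ π₂ (F σ b) ↔ _
    rw [hF, hF]
    simp
  have h := fix_pr f hf j
  have h2 := hF σ (pr j)
  rw [← h2]
  exact congrArg _ h

end Pool.Agent.BDLat
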