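import Mathlib
import Pool.Agent.BDLat.Lat

/-!
Automorphisms of the twisted function lattices.
-/

set_option autoImplicit false

namespace Pool.Agent.BDLat

variable {X : Type} (π₁ π₂ : Equiv.Perm X)

theorem ind_pr (j : Fin 7) : ind π₁ π₂ (pr j) = el π₁ π₂ j MX.top := by
  apply Subtype.ext
  funext k
  change (if (decide (k = j) || E j k) = true then (MX.top : MX X) else MX.bot) =
    (if k = j then MX.top else if E j k = true then MX.top else MX.bot)
  by_cases h : k = j <;> simp [h]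

theorem isD_el_bot (j : Fin 7) : IsD π₁ π₂ (el π₁ π₂ j MX.bot) := by
  intro k
  change (if k = j then (MX.bot : MX X) else if E j k = true then MX.top else MX.bot) = MX.bot ∨
    (if k = j then (MX.bot : MX X) else if E j k = true then MX.top else MX.bot) = MX.top
  split_ifs <;> simp

theorem el_apply (j k : Fin 7) (m : MX X) :
    (el π₁ π₂ j m).1 k = if k = j then m else if E j k = true then MX.top else MX.bot := rfl

theorem le_el_bot (j : Fin 7) (g : Lat π₁ π₂) (hg : IsD π₁ π₂ g)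
    (hle : g ≤ el π₁ π₂ j MX.top) (hne : g ≠ el π₁ π₂ j MX.top) : g ≤ el π₁ π₂ j MX.bot := by
  have hj : g.1 j = MX.bot := by
    rcases hg j with h | h
    · exact h
    · exfalso
      apply hne
      apply le_antisymm hle
      intro k
      change (el π₁ π₂ j MX.top).1 k ≤ g.1 k
      rw [el_apply]
      split_ifs with h1 h2
      · rw [h1, h]
      · have := g.2 j k h2
        rw [h] at this
        simpa using this
      · simp
  intro k
  change g.1 k ≤ (el π₁ π₂ j MX.bot).1 k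
  have hk : g.1 k ≤ (el π₁ π₂ j MX.top).1 k := hle k
  rw [el_apply] at hk ⊢
  split_ifs with h1 h2
  · rw [h1, hj]
  · simp
  · simpa [h1, h2] using hk

variable (hX : ∀ a : X, ∃ b c : X, a ≠ b ∧ a ≠ c ∧ b ≠ c)

include hX in
theorem fix_el_top (σ : Lat π₁ π₂ ≃o Lat π₁ π₂) (j : Fin 7) :
    σ (el π₁ π₂ j MX.top) = el π₁ π₂ j MX.top := by
  rw [← ind_pr]
  exact fix_ind π₁ π₂ hX σ j

include hX in
theorem fix_el_bot_le (σ : Lat π₁ π₂ ≃o Lat π₁ π₂) (j : Fin 7) :
    σ (el π₁ π₂ j MX.bot) ≤ el π₁ π₂ j MX.bot := by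
  apply le_el_bot
  · exact isD_map π₁ π₂ hX σ _ (isD_el_bot π₁ π₂ j)
  · rw [← fix_el_top π₁ π₂ hX σ j]
    exact σ.monotone (el_le _ _ _ _ _ (by simp))
  · rw [← fix_el_top π₁ π₂ hX σ j]
    intro h
    have := congrArg (fun f : Lat π₁ π₂ => f.1 j) (σ.injective h)
    simp only [el_self] at this
    exact absurd this (by simp)

include hX in
theorem fix_el_bot (σ : Lat π₁ π₂ ≃o Lat π₁ π₂) (j : Fin 7) :
    σ (el π₁ π₂ j MX.bot) = el π₁ π₂ j MX.bot := by
  apply le_antisymm (fix_el_bot_le π₁ π₂ hX σ j)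
  have := σ.monotone (fix_el_bot_le π₁ π₂ hX σ.symm j)
  simpa using this

theorem proj_el (j : Fin 7) (x : Lat π₁ π₂) :
    (x ⊓ el π₁ π₂ j MX.top) ⊔ el π₁ π₂ j MX.bot = el π₁ π₂ j (x.1 j) := by
  apply Subtype.ext
  funext k
  change (x.1 k ⊓ (el π₁ π₂ j MX.top).1 k) ⊔ (el π₁ π₂ j MX.bot).1 k = (el π₁ π₂ j (x.1 j)).1 k
  simp only [el_apply]
  split_ifs with h1 h2
  · simp [h1]
  · simp
  · simp

include hX in
theorem apply_eq (σ : Lat π₁ π₂ ≃o Lat π₁ π₂) (j : Fin 7) (x : Lat π₁ π₂) :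
    (σ x).1 j = (σ (el π₁ π₂ j (x.1 j))).1 j := by
  rw [← proj_el, map_sup, map_inf, fix_el_top π₁ π₂ hX, fix_el_bot π₁ π₂ hX, proj_el, el_self]

include hX in
theorem exists_atom (σ : Lat π₁ π₂ ≃o Lat π₁ π₂) (j : Fin 7) (x : X) :
    ∃ y : X, (σ (el π₁ π₂ j (MX.atom x))).1 j = MX.atom y := by
  rcases h : (σ (el π₁ π₂ j (MX.atom x))).1 j with _ | y | _
  · exfalso
    have h1 := apply_eq π₁ π₂ hX σ.symm j (σ (el π₁ π₂ j (MX.atom x)))
    rw [h, fix_el_bot π₁ π₂ hX] at h1
    simp only [OrderIso.symm_apply_apply, el_self] at h1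
    exact absurd h1 (by simp)
  · exact ⟨y, rfl⟩
  · exfalso
    have h1 := apply_eq π₁ π₂ hX σ.symm j (σ (el π₁ π₂ j (MX.atom x)))
    rw [h, fix_el_top π₁ π₂ hX] at h1
    simp only [OrderIso.symm_apply_apply, el_self] at h1
    exact absurd h1 (by simp)

include hX in
/-- Every automorphism acts on the coordinates through one map that commutes with the two
permutations. -/
theorem exists_fun (σ : Lat π₁ π₂ ≃o Lat π₁ π₂) :
    ∃ A : X → X, (∀ x, A (π₁ x) = π₁ (A x)) ∧ (∀ x, A (π₂ x) = π₂ (A x)) ∧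
      ∀ (j : Fin 7) (f : Lat π₁ π₂), (σ f).1 j = match f.1 j with
        | MX.bot => MX.bot
        | MX.atom x => MX.atom (A x)
        | MX.top => MX.top := by
  choose A hA using exists_atom π₁ π₂ hX σ
  have hform : ∀ (j : Fin 7) (f : Lat π₁ π₂), (σ f).1 j = match f.1 j with
        | MX.bot => MX.bot
        | MX.atom x => MX.atom (A j x)
        | MX.top => MX.top := by
    intro j f
    rw [apply_eq π₁ π₂ hX σ j f]
    rcases h : f.1 j with _ | x | _
    · rw [fix_el_bot π₁ π₂ hX, el_self]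
    · exact hA j x
    · rw [fix_el_top π₁ π₂ hX, el_self]
  have hedge : ∀ j k, E j k = true → ∀ x, rho π₁ π₂ j k (A j x) = A k (rho π₁ π₂ j k x) := by
    intro j k hjk x
    have hne : k ≠ j := by
      rintro rfl
      rw [E_irrefl] at hjk
      exact absurd hjk (by decide)
    have h1 := (σ (tw π₁ π₂ j x)).2 j k hjk
    rw [hform j, hform k] at h1
    have e1 : (tw π₁ π₂ j x).1 j = MX.atom x := by simp [tw]
    have e2 : (tw π₁ π₂ j x).1 k = MX.atom (rho π₁ π₂ j k x) := by simp [tw, hne, hjk]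
    rw [e1, e2] at h1
    simpa using h1
  have h03 : ∀ x, A 0 x = A 3 x := fun x => by simpa [rho] using hedge 0 3 (by decide) x
  have h13 : ∀ x, A 1 x = A 3 x := fun x => by simpa [rho] using hedge 1 3 (by decide) x
  have h23 : ∀ x, A 2 x = A 3 x := fun x => by simpa [rho] using hedge 2 3 (by decide) x
  have h04 : ∀ x, A 0 x = A 4 x := fun x => by simpa [rho] using hedge 0 4 (by decide) x
  have h05 : ∀ x, A 0 x = A 5 x := fun x => by simpa [rho] using hedge 0 5 (by decide) x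
  have h16 : ∀ x, A 1 x = A 6 x := fun x => by simpa [rho] using hedge 1 6 (by decide) x
  have h14 : ∀ x, π₁ (A 1 x) = A 4 (π₁ x) := fun x => by
    simpa [rho] using hedge 1 4 (by decide) x
  have h25 : ∀ x, π₂ (A 2 x) = A 5 (π₂ x) := fun x => by
    simpa [rho] using hedge 2 5 (by decide) x
  have hall : ∀ j x, A j x = A 0 x := by
    intro j x
    fin_cases j
    · rfl
    · exact (h13 x).trans (h03 x).symm
    · exact (h23 x).trans (h03 x).symm
    · exact (h03 x).symm
    · exact (h04 x).symm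
    · exact (h05 x).symm
    · exact (h16 x).symm.trans ((h13 x).trans (h03 x).symm)
  refine ⟨A 0, ?_, ?_, ?_⟩
  · intro x
    rw [← hall 4, ← hall 1, h14]
  · intro x
    rw [← hall 5, ← hall 2, h25]
  · intro j f
    rw [hform j f]
    rcases f.1 j with _ | x | _
    · rfl
    · simp only [hall j x]
    · rfl

/-- A permutation that commutes with the two given ones acts on the lattice. -/
def actFun (τ : Equiv.Perm X) (h1 : ∀ x, τ (π₁ x) = π₁ (τ x)) (h2 : ∀ x, τ (π₂ x) = π₂ (τ x))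
    (f : Lat π₁ π₂) : Lat π₁ π₂ :=
  ⟨fun j => MX.map τ (f.1 j), by
    rw [mem_Lat]
    intro j k hjk
    have h := f.2 j k hjk
    rw [← MX.map_le_map τ] at h
    have hc : ∀ x, τ (rho π₁ π₂ j k x) = rho π₁ π₂ j k (τ x) := by
      intro x
      unfold rho
      split_ifs
      · exact h1 x
      · exact h2 x
      · rfl
    have hc2 : MX.map τ (MX.map (rho π₁ π₂ j k) (f.1 j)) =
        MX.map (rho π₁ π₂ j k) (MX.map τ (f.1 j)) := by
      rcases f.1 j with _ | x | _
      · rfl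
      · simp [hc]
      · rfl
    rw [hc2] at h
    exact h⟩

/-- The automorphism given by a commuting permutation. -/
def act (τ : Equiv.Perm X) (h1 : ∀ x, τ (π₁ x) = π₁ (τ x)) (h2 : ∀ x, τ (π₂ x) = π₂ (τ x)) :
    Lat π₁ π₂ ≃o Lat π₁ π₂ where
  toFun := actFun π₁ π₂ τ h1 h2
  invFun := actFun π₁ π₂ τ⁻¹
    (fun x => by rw [Equiv.Perm.inv_eq_iff_eq, h1]; simp)
    (fun x => by rw [Equiv.Perm.inv_eq_iff_eq, h2]; simp)
  left_inv := by
    intro f
    apply Subtype.ext
    funext j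
    change MX.map τ⁻¹ (MX.map τ (f.1 j)) = f.1 j
    rw [← MX.map_mul]; simp
  right_inv := by
    intro f
    apply Subtype.ext
    funext j
    change MX.map τ (MX.map τ⁻¹ (f.1 j)) = f.1 j
    rw [← MX.map_mul]; simp
  map_rel_iff' := by
    intro f g
    constructor
    · intro h j
      exact (MX.map_le_map τ _ _).1 (h j)
    · intro h j
      exact (MX.map_le_map τ _ _).2 (h j)

theorem act_apply (τ : Equiv.Perm X) (h1 : ∀ x, τ (π₁ x) = π₁ (τ x))
    (h2 : ∀ x, τ (π₂ x) = π₂ (τ x)) (f : Lat π₁ π₂) (j : Fin 7) :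
    (act π₁ π₂ τ h1 h2 f).1 j = MX.map τ (f.1 j) := rfl

/-- The lattice embeds in a product of fourteen chains. -/
theorem exists_embedding [Finite X] : Nonempty (Lat π₁ π₂ ↪o (Fin 14 → ℕ)) := by
  classical
  have e : X ≃ Fin (Nat.card X) := Finite.equivFin X
  have key : ∀ f g : Lat π₁ π₂,
      (∀ i : Fin 14, MX.crd e (finProdFinEquiv.symm i : Fin 7 × Fin 2).2
          (f.1 (finProdFinEquiv.symm i : Fin 7 × Fin 2).1) ≤
        MX.crd e (finProdFinEquiv.symm i : Fin 7 × Fin 2).2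
          (g.1 (finProdFinEquiv.symm i : Fin 7 × Fin 2).1)) ↔ f ≤ g := by
    intro f g
    constructor
    · intro h j
      change f.1 j ≤ g.1 j
      rw [MX.le_iff_crd e]
      intro s
      have := h (finProdFinEquiv (j, s))
      simpa using this
    · intro h i
      exact (MX.le_iff_crd e _ _).1 (h _) _
  exact ⟨OrderEmbedding.ofMapLEIff (fun f i => MX.crd e (finProdFinEquiv.symm i : Fin 7 × Fin 2).2
      (f.1 (finProdFinEquiv.symm i : Fin 7 × Fin 2).1)) (fun f g => key f g)⟩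

end Pool.Agent.BDLat
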