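import Mathlib
import Pool.Agent.BDLat.Aut

/-!
Every finite group is the automorphism group of a twisted function lattice.
-/

set_option autoImplicit false

namespace Pool.Agent.BDLat

variable {G : Type} [Group G]

/-- The second permutation: multiply the first entry by the second. -/
def p2 (G : Type) [Group G] : Equiv.Perm (G × G) where
  toFun := fun x => (x.1 * x.2, x.2)
  invFun := fun x => (x.1 * x.2⁻¹, x.2)
  left_inv := fun x => by simp
  right_inv := fun x => by simp

/-- The first permutation: a permutation of the second entry. -/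
def p1 (c : Equiv.Perm G) : Equiv.Perm (G × G) where
  toFun := fun x => (x.1, c x.2)
  invFun := fun x => (x.1, c.symm x.2)
  left_inv := fun x => by simp
  right_inv := fun x => by simp

/-- Left multiplication on the first entry. -/
def lam (g : G) : Equiv.Perm (G × G) where
  toFun := fun x => (g * x.1, x.2)
  invFun := fun x => (g⁻¹ * x.1, x.2)
  left_inv := fun x => by simp
  right_inv := fun x => by simp

theorem lam_p1 (c : Equiv.Perm G) (g : G) (x : G × G) : lam g (p1 c x) = p1 c (lam g x) := rfl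

theorem lam_p2 (g : G) (x : G × G) : lam g (p2 G x) = p2 G (lam g x) := by
  simp [lam, p2, mul_assoc]

/-- The maps commuting with both permutations are the left multiplications. -/
theorem eq_lam (c : Equiv.Perm G) (hc : ∀ x y : G, ∃ n : ℕ, (c ^ n) x = y)
    (A : G × G → G × G) (h1 : ∀ x, A (p1 c x) = p1 c (A x)) (h2 : ∀ x, A (p2 G x) = p2 G (A x)) :
    ∃ g : G, ∀ x, A x = lam g x := by
  have hb : (A (1, 1)).2 = 1 := by
    have h := h2 (1, 1)
    have e : p2 G ((1, 1) : G × G) = (1, 1) := by simp [p2]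
    rw [e] at h
    have h' : (A (1, 1)).1 = (A (1, 1)).1 * (A (1, 1)).2 := congrArg Prod.fst h
    simpa using h'
  refine ⟨(A (1, 1)).1, ?_⟩
  set g := (A (1, 1)).1 with hg
  have base : A (1, 1) = lam g (1, 1) := by
    apply Prod.ext
    · simp [lam, hg]
    · simpa [lam] using hb
  have step1 : ∀ (n : ℕ) (x : G × G), A x = lam g x →
      A (x.1, (c ^ n) x.2) = lam g (x.1, (c ^ n) x.2) := by
    intro n
    induction n with
    | zero => intro x hx; simpa using hx
    | succ n ih =>
      intro x hx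
      have e : p1 c (x.1, (c ^ n) x.2) = (x.1, (c ^ (n + 1)) x.2) := by
        simp [p1, pow_succ']
      rw [← e, h1, ih x hx, lam_p1]
  have step1' : ∀ (a b b' : G), A (a, b) = lam g (a, b) → A (a, b') = lam g (a, b') := by
    intro a b b' h
    obtain ⟨n, hn⟩ := hc b b'
    have := step1 n (a, b) h
    simpa [hn] using this
  have step2 : ∀ x : G × G, A x = lam g x → A (p2 G x) = lam g (p2 G x) := by
    intro x hx
    rw [h2, hx, lam_p2]
  intro x
  obtain ⟨a, b⟩ := x
  have s1 : A (1, a) = lam g (1, a) := step1' 1 1 a base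
  have s2 : A (a, a) = lam g (a, a) := by
    have := step2 (1, a) s1
    simpa [p2] using this
  exact step1' a a b s2

theorem exists_cycle (G : Type) [Finite G] :
    ∃ c : Equiv.Perm G, ∀ x y : G, ∃ n : ℕ, (c ^ n) x = y := by
  classical
  have := Fintype.ofFinite G
  obtain ⟨c, hc, -⟩ := Finset.exists_cycleOn (Finset.univ : Finset G)
  refine ⟨c, fun x y => ?_⟩
  have h := hc.2 (Finset.mem_coe.2 (Finset.mem_univ x)) (Finset.mem_coe.2 (Finset.mem_univ y))
  obtain ⟨n, -, hn⟩ := h.exists_pow_eq'
  exact ⟨n, hn⟩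

theorem three (G : Type) [Group G] [Nontrivial G] :
    ∀ a : G × G, ∃ b c : G × G, a ≠ b ∧ a ≠ c ∧ b ≠ c := by
  intro a
  obtain ⟨g, hg⟩ := exists_ne (1 : G)
  refine ⟨(g * a.1, a.2), (a.1, g * a.2), ?_, ?_, ?_⟩
  · intro h
    have := congrArg Prod.fst h
    simp at this
    exact hg this
  · intro h
    have := congrArg Prod.snd h
    simp at this
    exact hg this
  · intro h
    have := congrArg Prod.fst h
    simp at this
    exact hg this

/-- Every finite group with more than one element is represented. -/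
theorem exists_iso (G : Type) [Group G] [Finite G] [Nontrivial G] :
    ∃ π₁ π₂ : Equiv.Perm (G × G), ∃ φ : G ≃ (Lat π₁ π₂ ≃o Lat π₁ π₂),
      ∀ a b : G, φ (a * b) = (φ b).trans (φ a) := by
  obtain ⟨c, hc⟩ := exists_cycle G
  refine ⟨p1 c, p2 G, ?_⟩
  let φ0 : G → (Lat (p1 c) (p2 G) ≃o Lat (p1 c) (p2 G)) := fun g =>
    act (p1 c) (p2 G) (lam g) (lam_p1 c g) (lam_p2 g)
  have hinj : Function.Injective φ0 := by
    intro g h hgh
    have h1 := congrArg (fun σ : Lat (p1 c) (p2 G) ≃o Lat (p1 c) (p2 G) =>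
      (σ (el (p1 c) (p2 G) 0 (MX.atom (1, 1)))).1 0) hgh
    simp only [φ0, act_apply, el_self, MX.map_atom, MX.atom.injEq] at h1
    have h2 := congrArg Prod.fst h1
    simpa [lam] using h2
  have hsurj : Function.Surjective φ0 := by
    intro σ
    obtain ⟨A, hA1, hA2, hA⟩ := exists_fun (p1 c) (p2 G) (three G) σ
    obtain ⟨g, hg⟩ := eq_lam c hc A hA1 hA2
    refine ⟨g, ?_⟩
    ext f j
    rw [hA j f]
    change MX.map (lam g) (f.1 j) = _
    rcases f.1 j with _ | x | _
    · rfl
    · simp [hg x]
    · rfl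
  refine ⟨Equiv.ofBijective φ0 ⟨hinj, hsurj⟩, ?_⟩
  intro a b
  ext f j
  change MX.map (lam (a * b)) (f.1 j) = MX.map (lam a) (MX.map (lam b) (f.1 j))
  rw [← MX.map_mul]
  congr 1
  ext x <;> simp [lam, mul_assoc]

end Pool.Agent.BDLat
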